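import Pool.Agent.H73.TS.TargetsC

/-! Board `ts_modules`, letters CUW and GRD. -/

set_option autoImplicit false

open MeasureTheory Set Metric Filter
open scoped ENNReal Topology Pointwise

namespace Pool.Agent.H20.TS

open Pool.Agent.H73.TS

/-- The volume of a half open cube. -/
theorem vol_cell (d : ℕ) (a b : Fin d → ℝ) :
    volume {x : E d | ∀ i, a i ≤ x i ∧ x i < b i} = ∏ i, ENNReal.ofReal (b i - a i) := by
  have h := EuclideanSpace.volume_preserving_symm_measurableEquiv_toLp (Fin d)
  have h1 : {x : E d | ∀ i, a i ≤ x i ∧ x i < b i} =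
      (MeasurableEquiv.toLp 2 (Fin d → ℝ)).symm ⁻¹'
        (Set.pi Set.univ (fun i => Set.Ico (a i) (b i))) := by
    ext x
    simp only [Set.mem_ofPred_eq, Set.mem_preimage, Set.mem_pi, Set.mem_univ, forall_true_left,
      Set.mem_Ico]
    rfl
  rw [h1, h.measure_preimage_equiv, Real.volume_pi_Ico]

theorem measurableSet_cell (d : ℕ) (a b : Fin d → ℝ) :
    MeasurableSet {x : E d | ∀ i, a i ≤ x i ∧ x i < b i} := by
  have h1 : {x : E d | ∀ i, a i ≤ x i ∧ x i < b i} =
      (MeasurableEquiv.toLp 2 (Fin d → ℝ)).symm ⁻¹'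
        (Set.pi Set.univ (fun i => Set.Ico (a i) (b i))) := by
    ext x
    simp only [Set.mem_ofPred_eq, Set.mem_preimage, Set.mem_pi, Set.mem_univ, forall_true_left,
      Set.mem_Ico]
    rfl
  rw [h1]
  exact (MeasurableEquiv.toLp 2 (Fin d → ℝ)).symm.measurable
    (MeasurableSet.univ_pi fun i => measurableSet_Ico)

/-- The unit cube has volume one. -/
theorem vol_cube (d : ℕ) :
    volume {b : E d | ∀ i, b i ∈ Set.Icc (0 : ℝ) 1} = 1 := by
  have h := EuclideanSpace.volume_preserving_symm_measurableEquiv_toLp (Fin d)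
  have h1 : {b : E d | ∀ i, b i ∈ Set.Icc (0 : ℝ) 1} =
      (MeasurableEquiv.toLp 2 (Fin d → ℝ)).symm ⁻¹' (Set.Icc (fun _ => 0) (fun _ => 1)) := by
    ext b
    simp only [Set.mem_ofPred_eq, Set.mem_preimage, Set.mem_Icc, Pi.le_def]
    constructor
    · intro h
      exact ⟨fun i => (h i).1, fun i => (h i).2⟩
    · intro h i
      exact ⟨h.1 i, h.2 i⟩
  rw [h1, h.measure_preimage_equiv, Real.volume_Icc_pi]
  simp

/-- Coordinate boxes are compact. -/
theorem isCompact_box (d : ℕ) (a b : ℝ) :
    IsCompact {x : E d | ∀ i, x i ∈ Set.Icc a b} := by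
  have h1 : {x : E d | ∀ i, x i ∈ Set.Icc a b} =
      (fun y : Fin d → ℝ => (WithLp.toLp 2 y : E d)) '' (Set.Icc (fun _ => a) (fun _ => b)) := by
    ext x
    constructor
    · intro hx
      exact ⟨fun i => x i, ⟨fun i => (hx i).1, fun i => (hx i).2⟩, rfl⟩
    · rintro ⟨y, hy, rfl⟩ i
      exact ⟨hy.1 i, hy.2 i⟩
  rw [h1]
  exact isCompact_Icc.image (PiLp.continuous_toLp 2 _)

theorem cuw (hASY : T_ASY) : T_CUW := by
  intro k ε hε
  have hA := hASY k {x : E k | ∀ i, x i ∈ Set.Icc (0 : ℝ) 1} (isCompact_box k 0 1)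
    ⟨0, fun i => by simp⟩
  rw [vol_cube k] at hA
  have hB := hA.comp tendsto_natCast_atTop_atTop
  have h1 : (1 : ℝ≥0∞).toReal < 1 + ε := by
    simpa using hε
  obtain ⟨N, hN, hN1⟩ := ((hB.eventually_lt_const h1).and (eventually_ge_atTop 1)).exists
  refine ⟨N, hN1, ?_⟩
  have hN0 : (0 : ℝ) < N := by exact_mod_cast hN1
  have h2 : ((fun x : E k => (N : ℝ) • x) '' {x : E k | ∀ i, x i ∈ Set.Icc (0 : ℝ) 1}) =
      {x : E k | ∀ r, x r ∈ Set.Icc (0 : ℝ) N} := by
    ext x
    constructor
    · rintro ⟨y, hy, rfl⟩ i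
      have h3 := hy i
      simp only [Set.mem_Icc, PiLp.smul_apply, smul_eq_mul] at h3 ⊢
      constructor
      · exact mul_nonneg hN0.le h3.1
      · nlinarith [h3.2]
    · intro hx
      refine ⟨(N : ℝ)⁻¹ • x, fun i => ?_, ?_⟩
      · have h3 := hx i
        simp only [Set.mem_Icc, PiLp.smul_apply, smul_eq_mul] at h3 ⊢
        constructor
        · exact mul_nonneg (inv_nonneg.2 hN0.le) h3.1
        · rw [inv_mul_le_iff₀ hN0]
          linarith [h3.2]
      · simp only [smul_smul]
        rw [mul_inv_cancel₀ hN0.ne', one_smul]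
  simp only [Function.comp_apply] at hN
  rw [h2, div_lt_iff₀ (pow_pos hN0 k)] at hN
  exact hN.le

/-- A convex neighbourhood of zero absorbs compact sets. -/
theorem absorb {d : ℕ} (A B : Set (E d)) (hA : IsCompact A) (hB : (0 : E d) ∈ interior B) :
    ∃ κ : ℝ, 0 < κ ∧ ∀ a ∈ A, ∃ z ∈ B, a = κ • z := by
  obtain ⟨C, hC⟩ := hA.isBounded.exists_norm_le
  obtain ⟨ε, hε, hεO⟩ := Metric.mem_nhds_iff.1 (mem_interior_iff_mem_nhds.1 hB)
  obtain ⟨κ, hκ⟩ : ∃ κ : ℝ, κ = (max C 0 + 1) / ε * 2 := ⟨_, rfl⟩
  have hm : 0 ≤ max C 0 := le_max_right _ _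
  have hκ0 : 0 < κ := by rw [hκ]; positivity
  refine ⟨κ, hκ0, fun k hk => ⟨κ⁻¹ • k, hεO ?_, ?_⟩⟩
  · rw [mem_ball, dist_zero_right, norm_smul, Real.norm_eq_abs,
      abs_of_pos (inv_pos.2 hκ0), inv_mul_lt_iff₀ hκ0]
    have h1 : ‖k‖ ≤ max C 0 := (hC k hk).trans (le_max_left _ _)
    have h2 : κ * ε = (max C 0 + 1) * 2 := by
      rw [hκ]; field_simp
    rw [h2]
    linarith
  · rw [smul_smul, mul_inv_cancel₀ hκ0.ne', one_smul]

theorem grd : T_GRD := by
  intro d L K T hd hK H Om hOc hOv hO0
  have hOm0 : (0 : E d) ∈ Om := interior_subset hO0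
  obtain ⟨B, hB⟩ : ∃ B : Set (E d), B = (fun x => L x) '' Om := ⟨_, rfl⟩
  have hBc : IsCompact B := by
    rw [hB]; exact hOc.image L.continuous
  have hB0 : (0 : E d) ∈ interior B := by
    have h1 : (fun x => L x) '' interior Om ⊆ interior B := by
      rw [hB]
      exact (L.toHomeomorph.isOpenMap).image_interior_subset Om
    exact h1 ⟨0, hO0, map_zero L⟩
  have hBv : Convex ℝ B := by
    rw [hB]
    exact hOv.linear_image (L : E d →ₗ[ℝ] E d)
  obtain ⟨V, hV⟩ : ∃ V : ℝ≥0∞, V = volume Om := ⟨_, rfl⟩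
  have hV0 : V ≠ 0 := by
    rw [hV]
    exact (MeasureTheory.Measure.measure_pos_of_mem_nhds _ (mem_interior_iff_mem_nhds.1 hO0)).ne'
  have hVt : V ≠ ⊤ := by
    rw [hV]; exact hOc.measure_lt_top.ne
  obtain ⟨D, hD⟩ : ∃ D : ℝ, D = |LinearMap.det (L : E d →ₗ[ℝ] E d)| := ⟨_, rfl⟩
  have hD0 : 0 ≤ D := by rw [hD]; exact abs_nonneg _
  have hBvol : volume B = ENNReal.ofReal D * V := by
    rw [hB, hV, hD]
    exact Measure.addHaar_image_linearMap (volume : Measure (E d)) (L : E d →ₗ[ℝ] E d) Om
  rw [← hD]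
  -- the bound for each positive real
  have main : ∀ ε : ℝ, 0 < ε → Filter.limsup (fun R : ℝ =>
      (({t ∈ T | (((fun x => t + x) '' K) ∩ ((fun x => R • x) '' Om)).Nonempty}.encard : ℕ∞)
      : ℝ≥0∞) / volume ((fun x => R • x) '' Om)) Filter.atTop ≤
      ENNReal.ofReal ((1 + ε) * D) := by
    intro ε hε
    obtain ⟨N, hN1, hN⟩ := H ε hε
    have hN0 : (0 : ℝ) < N := by exact_mod_cast hN1
    -- absorb the cells and the window
    obtain ⟨κ, hκ0, hκ⟩ : ∃ κ : ℝ, 0 < κ ∧ ∀ x ∈ K, ∀ b : E d, (∀ i, b i ∈ Set.Icc (-(N : ℝ)) N) →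
        ∃ z ∈ B, b - L x = κ • z := by
      obtain ⟨κ, hκ0, hκ⟩ := absorb
        ((fun p : E d × E d => p.1 - L p.2) '' ({x : E d | ∀ i, x i ∈ Set.Icc (-(N : ℝ)) N} ×ˢ K)) B
        (((isCompact_box d (-(N : ℝ)) N).prod hK).image (by fun_prop)) hB0
      exact ⟨κ, hκ0, fun x hx b hb => hκ _ ⟨(b, x), ⟨hb, hx⟩, rfl⟩⟩
    have key : ∀ R : ℝ, 0 < R →
        (({t ∈ T | (((fun x => t + x) '' K) ∩ ((fun x => R • x) '' Om)).Nonempty}.encard : ℕ∞)
          : ℝ≥0∞) ≤ ENNReal.ofReal ((1 + ε) * D * (R + κ) ^ d) * V := by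
      intro R hR
      obtain ⟨TR, hTR⟩ : ∃ TR : Set (E d),
          TR = {t ∈ T | (((fun x => t + x) '' K) ∩ ((fun x => R • x) '' Om)).Nonempty} :=
        ⟨_, rfl⟩
      have hRκ : 0 < R + κ := by linarith
      -- the cell of a point
      let cel : E d → (Fin d → ℤ) := fun u i => ⌊(L u) i / N⌋
      let CL : (Fin d → ℤ) → Set (E d) := fun c =>
        {x : E d | ∀ i, (N : ℝ) * c i ≤ x i ∧ x i < (N : ℝ) * c i + N}
      have hcel : ∀ u, L u ∈ CL (cel u) := by
        intro u i
        have h1 := Int.floor_le ((L u) i / N)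
        have h2 := Int.lt_floor_add_one ((L u) i / N)
        rw [le_div_iff₀ hN0] at h1
        rw [div_lt_iff₀ hN0] at h2
        constructor
        · show (N : ℝ) * ((⌊(L u) i / N⌋ : ℤ) : ℝ) ≤ (L u) i
          linarith
        · show (L u) i < (N : ℝ) * ((⌊(L u) i / N⌋ : ℤ) : ℝ) + N
          linarith
      have hsub : ∀ t ∈ TR, CL (cel t) ⊆ (fun x => (R + κ) • x) '' B := by
        intro t ht y hy
        rw [hTR] at ht
        obtain ⟨-, y0, ⟨k, hk, hky⟩, ⟨z, hz, hzy⟩⟩ := ht
        simp only at hky hzy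
        have hLt := hcel t
        obtain ⟨z', hz', hkz⟩ := hκ k hk (y - L t) (fun i => by
          have h1 := hy i
          have h2 := hLt i
          have h3 : (y - L t) i = y i - (L t) i := rfl
          rw [h3, Set.mem_Icc]
          constructor <;> linarith [h1.1, h1.2, h2.1, h2.2])
        have ht : y = R • L z + κ • z' := by
          have h4 : L t + L k = R • L z := by
            rw [← map_add, ← map_smul, hky, hzy]
          rw [← hkz, ← h4]
          abel
        have hw : (R / (R + κ)) • L z + (κ / (R + κ)) • z' ∈ B := by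
          refine hBv ?_ hz' (by positivity) (by positivity) ?_
          · rw [hB]; exact ⟨z, hz, rfl⟩
          · rw [← add_div, div_self hRκ.ne']
        refine ⟨_, hw, ?_⟩
        simp only
        rw [smul_add, smul_smul, smul_smul, mul_div_cancel₀ _ hRκ.ne',
          mul_div_cancel₀ _ hRκ.ne', ht]
      have hcard : ∀ S : Finset (E d), (S : Set (E d)) ⊆ TR →
          ENNReal.ofReal (S.card : ℝ) ≤ ENNReal.ofReal ((1 + ε) * D * (R + κ) ^ d) * V := by
        intro S hS
        classical
        let P : Finset (Fin d → ℤ) := S.image cel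
        -- the number of cells
        have hvolP : (P.card : ℝ≥0∞) * ENNReal.ofReal ((N : ℝ) ^ d) ≤
            ENNReal.ofReal ((R + κ) ^ d) * (ENNReal.ofReal D * V) := by
          have h1 : volume (⋃ c ∈ P, CL c) = ∑ c ∈ P, volume (CL c) := by
            refine measure_biUnion_finset ?_ (fun c _ => measurableSet_cell d _ _)
            intro c _ c' _ hcc
            refine Set.disjoint_left.2 fun x hx hx' => hcc ?_
            funext i
            have e1 := hx i
            have e2 := hx' i
            have e3 : (N : ℝ) * c i < N * (c' i + 1) := by linarith [e1.1, e2.2]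
            have e4 : (N : ℝ) * c' i < N * (c i + 1) := by linarith [e1.2, e2.1]
            have e5 : (c i : ℝ) < c' i + 1 := lt_of_mul_lt_mul_left e3 hN0.le
            have e6 : (c' i : ℝ) < c i + 1 := lt_of_mul_lt_mul_left e4 hN0.le
            have e7 : c i < c' i + 1 := by exact_mod_cast e5
            have e8 : c' i < c i + 1 := by exact_mod_cast e6
            omega
          have h2 : ∀ c ∈ P, volume (CL c) = ENNReal.ofReal ((N : ℝ) ^ d) := by
            intro c _
            show volume {x : E d | ∀ i, (N : ℝ) * c i ≤ x i ∧ x i < (N : ℝ) * c i + N} = _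
            rw [vol_cell d (fun i => (N : ℝ) * c i) (fun i => (N : ℝ) * c i + N)]
            simp only [add_sub_cancel_left, Finset.prod_const, Finset.card_univ, Fintype.card_fin]
            rw [ENNReal.ofReal_pow hN0.le]
          rw [Finset.sum_congr rfl h2, Finset.sum_const, nsmul_eq_mul] at h1
          rw [← h1]
          have h3 : (⋃ c ∈ P, CL c) ⊆ (R + κ) • B := by
            intro x hx
            simp only [Set.mem_iUnion] at hx
            obtain ⟨c, hc, hx⟩ := hx
            obtain ⟨u, hu, rfl⟩ := Finset.mem_image.1 hc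
            exact hsub u (hS hu) hx
          refine (measure_mono h3).trans ?_
          rw [Measure.addHaar_smul, hBvol, abs_of_pos (pow_pos hRκ _)]
          simp [E]
        -- the number of points in the cells
        have hS1 : (S.card : ℝ) ≤ P.card * ((1 + ε) * (N : ℝ) ^ d) := by
          have h1 : S.card = ∑ c ∈ P, (S.filter (fun u => cel u = c)).card :=
            Finset.card_eq_sum_card_fiberwise (fun u hu => Finset.mem_image_of_mem _ hu)
          rw [h1]
          push_cast
          rw [← nsmul_eq_mul]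
          refine Finset.sum_le_card_nsmul _ _ _ (fun c _ => ?_)
          refine hN (fun i => N * c i) _ (fun u hu => ?_) (fun u hu i => ?_)
          · have h2 : u ∈ S := (Finset.mem_filter.1 (Finset.mem_coe.1 hu)).1
            have h3 := hS h2
            rw [hTR] at h3
            exact h3.1
          · have h2 := (Finset.mem_filter.1 hu).2
            have h3 := hcel u i
            rw [h2] at h3
            push_cast
            exact h3
        have e1 : ENNReal.ofReal (S.card : ℝ) ≤
            ENNReal.ofReal (1 + ε) * ((P.card : ℝ≥0∞) * ENNReal.ofReal ((N : ℝ) ^ d)) := by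
          refine (ENNReal.ofReal_le_ofReal hS1).trans ?_
          rw [ENNReal.ofReal_mul (by positivity), ENNReal.ofReal_natCast,
            ENNReal.ofReal_mul (by positivity)]
          exact le_of_eq (by ring)
        refine e1.trans ((mul_le_mul_right hvolP _).trans (le_of_eq ?_))
        rw [ENNReal.ofReal_mul (by positivity), ENNReal.ofReal_mul (by positivity)]
        ring
      have hXt : ENNReal.ofReal ((1 + ε) * D * (R + κ) ^ d) * V ≠ ⊤ :=
        ENNReal.mul_ne_top ENNReal.ofReal_ne_top hVt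
      have hfin : TR.Finite := by
        by_contra hc
        obtain ⟨n, hn⟩ := ENNReal.exists_nat_gt hXt
        obtain ⟨S, hS, hSn⟩ := Set.Infinite.exists_subset_card_eq hc n
        have := hcard S hS
        rw [hSn, ENNReal.ofReal_natCast] at this
        exact absurd this (not_le.2 hn)
      rw [← hTR, hfin.encard_eq_coe_toFinset_card]
      have h1 := hcard hfin.toFinset (by simp)
      rw [ENNReal.ofReal_natCast] at h1
      exact_mod_cast h1
    -- the limit
    have hlim1 : Tendsto (fun R : ℝ => (1 + ε) * D * (1 + κ / R) ^ d) atTop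
        (𝓝 ((1 + ε) * D)) := by
      have h3 : Tendsto (fun R : ℝ => κ / R) atTop (𝓝 0) :=
        tendsto_const_nhds.div_atTop tendsto_id
      have h4 := ((h3.const_add 1).pow d).const_mul ((1 + ε) * D)
      simpa using h4
    have hlim2 := (ENNReal.continuous_ofReal.tendsto ((1 + ε) * D)).comp hlim1
    rw [← hlim2.limsup_eq]
    refine limsup_le_limsup ?_
    filter_upwards [eventually_gt_atTop (0 : ℝ)] with R hR
    have hb : volume ((fun x => R • x) '' Om) = ENNReal.ofReal (R ^ d) * V := by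
      have h1 := Measure.addHaar_smul (volume : Measure (E d)) R Om
      have h2 : ((fun x : E d => R • x) '' Om) = R • Om := rfl
      rw [h2, h1, hV, abs_of_pos (pow_pos hR _)]
      simp [E]
    have hRd : (0 : ℝ) < R ^ d := pow_pos hR d
    have hX : (1 + ε) * D * (R + κ) ^ d = (1 + ε) * D * (1 + κ / R) ^ d * R ^ d := by
      rw [mul_assoc _ _ (R ^ d), ← mul_pow]
      congr 2
      field_simp
    calc (({t ∈ T | (((fun x => t + x) '' K) ∩ ((fun x => R • x) '' Om)).Nonempty}.encard : ℕ∞)
          : ℝ≥0∞) / volume ((fun x => R • x) '' Om)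
        ≤ (ENNReal.ofReal ((1 + ε) * D * (R + κ) ^ d) * V) / (ENNReal.ofReal (R ^ d) * V) := by
          rw [hb]
          gcongr
          exact key R hR
      _ = _ := by
          rw [ENNReal.mul_div_mul_right _ _ hV0 hVt, hX,
            ENNReal.ofReal_mul (by positivity), mul_div_assoc,
            ENNReal.div_self (by simpa using hRd) ENNReal.ofReal_ne_top, mul_one]
          rfl
  -- let the error tend to zero
  have hlim : Tendsto (fun ε : ℝ => ENNReal.ofReal ((1 + ε) * D)) (𝓝[>] 0)
      (𝓝 (ENNReal.ofReal D)) := by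
    have h1 : Tendsto (fun ε : ℝ => (1 + ε) * D) (𝓝 0) (𝓝 D) := by
      have h2 : Continuous (fun ε : ℝ => (1 + ε) * D) := by fun_prop
      have h3 := h2.tendsto 0
      simpa using h3
    exact (ENNReal.continuous_ofReal.tendsto D).comp (h1.mono_left nhdsWithin_le_nhds)
  refine ge_of_tendsto hlim ?_
  filter_upwards [self_mem_nhdsWithin] with ε hε
  exact main ε hε

end Pool.Agent.H20.TS
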